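import Mathlib

/-!
# The invariant classes of the `ℓ`-adic Tate module of the Brauer group of a cyclic covering

`F` is an algebraically closed field, `K` the field of rational functions of a surface over `F` and `S` an
algebraic closure of `K`. The Brauer group of `K` is the group `H²(Aut(S/K), Sˣ)`; the Brauer group of a
smooth projective model of `K` is the subgroup of the classes which are split by all the complete discretely
valued extensions of `K` whose valuation is trivial on `F` and not on `K`.
-/

open Polynomial IsLocalRing

namespace Pool.Agent.Lib.MP_89bcae_ag.Bra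

section

variable {K S : Type} [Field K] [Field S] [Algebra K S]

/-- `a` is a continuous cochain: the value `a g` depends only on the restriction of `g` to a finite set. -/
def IsCts {X : Type} (a : (S ≃ₐ[K] S) → X) : Prop :=
  ∃ T : Finset S, ∀ g g' : S ≃ₐ[K] S, (∀ x ∈ T, g x = g' x) → a g = a g'

/-- `b` is a continuous `2`-cocycle of `Aut(S/K)` with values in `Sˣ`; `b g h` depends only on the
restrictions of `g` and `h` to a finite set. -/
structure IsCocycle (b : (S ≃ₐ[K] S) → (S ≃ₐ[K] S) → Sˣ) : Prop where
  cocycle : ∀ g h j : S ≃ₐ[K] S, (b g h : S) * b (g * h) j = g (b h j) * b g (h * j)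
  continuous : ∃ T : Finset S, ∀ g g' h h' : S ≃ₐ[K] S, (∀ x ∈ T, g x = g' x) →
    (∀ x ∈ T, h x = h' x) → b g h = b g' h'

/-- `b` is the coboundary of a continuous cochain. -/
def IsCoboundary (b : (S ≃ₐ[K] S) → (S ≃ₐ[K] S) → Sˣ) : Prop :=
  ∃ a : (S ≃ₐ[K] S) → Sˣ, IsCts a ∧ ∀ g h : S ≃ₐ[K] S, (b g h : S) * a (g * h) = g (a h) * a g

/-- `b` is split by all the complete discretely valued fields `H` which contain `K`, with valuation ring `O`
containing `F` but not `K`: for every algebraic closure `T` of `H` and every embedding `j` of `S` in `T` over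
`K`, the class of `b` in `H²(Aut(T/H), Tˣ)` is trivial.

Let `X` be a smooth projective model of `K` over the algebraically closed field `F`, a surface. For the
classes of order prime to the characteristic, this means that the class belongs to the Brauer group of `X`. If
it does, then the morphism from `Spec H` to `X` extends to `Spec O`, the image of the closed point is a closed
point or a point of codimension one (`K` is not contained in `O`), and the Brauer group of `O` is that of its
residue field, while those of `F` and of the function fields of curves over `F` vanish (Tsen). If it does not,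
then, by purity, it is ramified at some point of codimension one, and the completion of `K` there does not
split it. -/
def IsUnramified (F : Type) [Field F] [Algebra F K] (b : (S ≃ₐ[K] S) → (S ≃ₐ[K] S) → Sˣ) : Prop :=
  ∀ (O H T : Type) [CommRing O] [IsDomain O] [IsDiscreteValuationRing O]
    [IsAdicComplete (maximalIdeal O) O] [Field H] [Algebra O H] [IsFractionRing O H]
    [Field T] [Algebra H T] [IsAlgClosure H T] (i : K →+* H) (j : S →+* T),
    (∀ x, j (algebraMap K S x) = algebraMap H T (i x)) →
    (∀ c : F, i (algebraMap F K c) ∈ (algebraMap O H).range) →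
    (∃ x : K, i x ∉ (algebraMap O H).range) →
    ∃ a : (T ≃ₐ[H] T) → Tˣ, IsCts a ∧ ∀ (g h : T ≃ₐ[H] T) (g' h' : S ≃ₐ[K] S),
      (∀ x, j (g' x) = g (j x)) → (∀ x, j (h' x) = h (j x)) →
        j (b g' h') * a (g * h) = g (a h) * a g

/-- The class of `b` is fixed by the automorphism `γ` of `S` (which maps `K` onto `K`): the cocycles
`γ (b g h)` and `b (γ g γ⁻¹) (γ h γ⁻¹)` are cohomologous. -/
def IsFixedBy (b : (S ≃ₐ[K] S) → (S ≃ₐ[K] S) → Sˣ) (γ : S ≃+* S) : Prop :=
  ∃ a : (S ≃ₐ[K] S) → Sˣ, IsCts a ∧ ∀ g h g' h' : S ≃ₐ[K] S,
    (∀ x, γ (g x) = g' (γ x)) → (∀ x, γ (h x) = h' (γ x)) →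
      γ (b g h) * a (g' * h') = b g' h' * (g' (a h') * a g')

/-- `b` represents an element of the `ℓ`-adic Tate module of `H²(Aut(S/K), Sˣ)`: a sequence of classes, the
first of which is trivial, such that each is the `ℓ`-th power of the next one. -/
structure IsTateSequence (ℓ : ℕ) (b : ℕ → (S ≃ₐ[K] S) → (S ≃ₐ[K] S) → Sˣ) : Prop where
  cocycle : ∀ n, IsCocycle (b n)
  zero : IsCoboundary (b 0)
  pow : ∀ n, IsCoboundary fun g h => b (n + 1) g h ^ ℓ / b n g h

end

/-- `K` is generated over `F` by `t`, `x`, `y`, where `t` and `x` are algebraically independent and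
`y ^ ℓ = ∏ (x - α_i(t)) ^ (W_i)`. -/
structure IsFunctionField (ℓ : ℕ) {k : Type} (F : Type) {K : Type} [Field k] [Field F] [Algebra k F] [Field K] [Algebra F K]
    {ι : Type} [Fintype ι] (W : ι → ℕ) (α : ι → k[X]) (t x y : K) : Prop where
  independent : AlgebraicIndependent F ![t, x]
  equation : y ^ ℓ = ∏ i, (x - aeval t ((α i).map (algebraMap k F))) ^ W i
  generate : IntermediateField.adjoin F {t, x, y} = ⊤

/-- The elements of the `ℓ`-adic Tate module of the Brauer group of a smooth projective model of the function
field `K = F(t, x, y)` which are fixed by the automorphisms over `k'(t, x, y)` are trivial. Here `k'` is a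
field of constants, contained in the algebraically closed field `F`, and `S` an algebraic closure of `K`. The
automorphisms `γ` of `S` over `k'(t, x, y)` map `K` onto `K`, those over `K` act trivially on `H²(Aut(S/K), Sˣ)`,
and the action of the others is that of `Gal(F/k')`, if `F` is an algebraic closure of `k'` and the surface is
defined over `k'`. -/
def BrauerInvariantsTrivial (ℓ : ℕ) {k F K : Type} (S : Type) [Field k] [Field F] [Algebra k F] [Field K]
    [Algebra F K] [Field S] [Algebra K S] (k' : IntermediateField k F) (t x y : K) : Prop :=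
  ∀ b : ℕ → (S ≃ₐ[K] S) → (S ≃ₐ[K] S) → Sˣ, IsTateSequence ℓ b →
    (∀ n, IsUnramified F (b n)) →
    (∀ γ : S ≃+* S, (∀ c : F, c ∈ k' → γ (algebraMap K S (algebraMap F K c)) =
        algebraMap K S (algebraMap F K c)) →
      γ (algebraMap K S t) = algebraMap K S t → γ (algebraMap K S x) = algebraMap K S x →
      γ (algebraMap K S y) = algebraMap K S y → ∀ n, IsFixedBy (b n) γ) →
    ∀ n, IsCoboundary (b n)

end Pool.Agent.Lib.MP_89bcae_ag.Bra
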