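import Mathlib
import Pool.Agent.Lib.MP_89bcae_ag.DefsN8
import Pool.Agent.Lib.MP_89bcae_ag.DefsS8
import Pool.Agent.Lib.MP_89bcae_ag.Bra.Defs

/-!
# The cyclic coverings branched along graphs of polynomials, and those of the plane branched along lines
-/

open Polynomial

open scoped Classical

namespace Pool.Agent.Lib.MP_89bcae_ag.Bra

open Superelliptic

/-- `A` is the integral closure of `F(t)[x]` in `K`: for all `n`, the `ℓ`-th powers of the elements of the
Picard group of `A` are `ℓ ^ n`-th powers. For `K` as in `IsFunctionField`, if `ℓ` divides neither the `W_i`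
nor their sum, the Picard group of `A` is the group of the points over `F(t)` of the Jacobian of the generic
fibre. Its quotient by the group of the points over `F` of the trace of the Jacobian (a divisible group) is
finitely generated, so that the property implies that this quotient is finite. -/
def PicardDivisible (ℓ : ℕ) (F : Type) {K : Type} [Field F] [Field K] [Algebra F K] (t x : K) : Prop :=
  ∀ (n : ℕ) (P : CommRing.Pic (integralClosure
    (Algebra.adjoin (IntermediateField.adjoin F ({t} : Set K)) ({x} : Set K)) K)),
    ∃ Q : CommRing.Pic (integralClosure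
      (Algebra.adjoin (IntermediateField.adjoin F ({t} : Set K)) ({x} : Set K)) K),
      P ^ ℓ = Q ^ ℓ ^ n

/-- The surface `y ^ ℓ = ∏ (x - α_i(t)) ^ (W_i)` over an algebraic closure `F` of `k`, where the `α_i` are
the polynomials over `k` of the family `v` with `i` in `I`. The `α_i - α_j` are nonconstant with separable
product. For all finite extensions `k'` of `k` in `F`, the elements of the `ℓ`-adic Tate module of the Brauer
group of a smooth projective model which are fixed by the automorphisms over `k'(t, x, y)` are trivial. The
Picard group of the integral closure of `F(t)[x]` satisfies `PicardDivisible`. -/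
structure GraphTate (ℓ : ℕ) (k : Type) [Field k] {ι : Type} [LinearOrder ι] {n : ℕ}
    (v : ι × Fin (n + 1) → ℤ) (I : Finset ι) (W : I → ℕ) : Prop where
  arrangement : IsArrangement fun i : I => Graph.polyFamily k v i
  brauer : ∀ (F K S : Type) [Field F] [Algebra k F] [IsAlgClosure k F] [Field K] [Algebra F K]
    [Field S] [Algebra K S] [IsAlgClosure K S] (t x y : K),
    IsFunctionField ℓ F W (fun i : I => Graph.polyFamily k v i) t x y →
    ∀ k' : IntermediateField k F, FiniteDimensional k k' → BrauerInvariantsTrivial ℓ S k' t x y
  picard : ∀ (F K : Type) [Field F] [Algebra k F] [IsAlgClosure k F] [Field K] [Algebra F K]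
    (t x y : K), IsFunctionField ℓ F W (fun i : I => Graph.polyFamily k v i) t x y →
    PicardDivisible ℓ F t x

/-! ## The coverings of the plane -/

section

variable {k : Type} [Field k] {ι : Type}

/-- The bracket of three of the lines `v(i, 0) X + v(i, 1) Y + v(i, 2) Z = 0` over the field `k`: the
determinant of their coefficients. It is zero if and only if they have a common point. -/
def bracketOver (v : ι × Fin 3 → k) (i j l : ι) : k :=
  (Matrix.of ![fun c => v (i, c), fun c => v (j, c), fun c => v (l, c)]).det

/-- The coefficients of the line `i` in the coordinates given by the matrix `g`. -/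
noncomputable def coeffIn (v : ι × Fin 3 → k) (g : Matrix (Fin 3) (Fin 3) k) (i : ι)
    (j : Fin 3) : k :=
  ∑ l, v (i, l) * g l j

/-- The polynomial `α` such that the line `i` is `x = α(t)`, in the affine coordinates `x`, `t` given by the
matrix `g`. -/
noncomputable def polyIn (v : ι × Fin 3 → k) (g : Matrix (Fin 3) (Fin 3) k) (i : ι) : k[X] :=
  C (-(coeffIn v g i 2 / coeffIn v g i 0)) + C (-(coeffIn v g i 1 / coeffIn v g i 0)) * X

end

/-- The `[ijl]` with `i < j < l` are not zero, and no product of their powers is a power `w ^ ℓ` or its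
opposite, unless `ℓ` divides all the exponents: they are independent in the quotient of the multiplicative
group of `k` by the subgroup of the `w ^ ℓ` and `-w ^ ℓ`. -/
structure HasIndependentBrackets (ℓ : ℕ) {k : Type} [Field k] {ι : Type} [Fintype ι] [LinearOrder ι]
    (v : ι × Fin 3 → k) : Prop where
  ne_zero : ∀ i j l : ι, i < j → j < l → bracketOver v i j l ≠ 0
  independent : ∀ (e : ι × ι × ι → ℕ) (w ε : k), ε ^ 2 = 1 →
    ∏ p ∈ Finset.univ.filter (fun p : ι × ι × ι => p.1 < p.2.1 ∧ p.2.1 < p.2.2),
      bracketOver v p.1 p.2.1 p.2.2 ^ e p = ε * w ^ ℓ →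
    ∀ i j l : ι, i < j → j < l → ℓ ∣ e (i, j, l)

/-- `K` is generated over `F` by `X`, `Y`, `y`, where `X` and `Y` are algebraically independent and
`y ^ ℓ = ∏ (v(i, 0) X + v(i, 1) Y + v(i, 2)) ^ (W_i)`. If `ℓ` divides the sum of the `W_i`, this is the
function field of the cyclic covering of degree `ℓ` of the plane branched along the lines
`v(i, 0) X + v(i, 1) Y + v(i, 2) Z = 0` such that `ℓ` does not divide `W_i`. -/
structure IsPlaneCover (ℓ : ℕ) (F : Type) {k K : Type} [Field k] [Field F] [Algebra k F] [Field K]
    [Algebra F K] {ι : Type} [Fintype ι] (W : ι → ℕ) (v : ι × Fin 3 → k) (X Y y : K) : Prop where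
  independent : AlgebraicIndependent F ![X, Y]
  equation : y ^ ℓ = ∏ i, (algebraMap F K (algebraMap k F (v (i, 0))) * X +
    algebraMap F K (algebraMap k F (v (i, 1))) * Y +
    algebraMap F K (algebraMap k F (v (i, 2)))) ^ W i
  generate : IntermediateField.adjoin F {X, Y, y} = ⊤

/-- The branch lines different from `i₀`. -/
noncomputable def branchLines {ι : Type} [Fintype ι] (ℓ : ℕ) (W : ι → ℕ) (i₀ : ι) : Finset ι :=
  Finset.univ.filter fun i => i ≠ i₀ ∧ ¬ ℓ ∣ W i

/-- `x`, `t` are affine coordinates over `k` of the plane with affine coordinates `X`, `Y`, such that the line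
`i₀` is the line at infinity and the branch lines different from `i₀` are the lines `x = α_i(t)`, where the
`α_i - α_j` are nonconstant with separable product. The matrix of the change of coordinates is `g`. -/
structure IsGoodChart (ℓ : ℕ) {k : Type} [Field k] {ι : Type} [Fintype ι] [LinearOrder ι]
    (v : ι × Fin 3 → k) (W : ι → ℕ) (i₀ : ι) (g : Matrix (Fin 3) (Fin 3) k) : Prop where
  det_ne_zero : g.det ≠ 0
  at_infinity : coeffIn v g i₀ 0 = 0 ∧ coeffIn v g i₀ 1 = 0
  ne_zero : ∀ i ∈ branchLines ℓ W i₀, coeffIn v g i 0 ≠ 0
  arrangement : IsArrangement fun i : branchLines ℓ W i₀ => polyIn v g i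

/-- `ℓ` divides the sum of the `W_i`, but not `W_{i₀}` and at least four others: the cyclic covering of the
plane of degree `ℓ` given by `W` has at least five branch lines, and `i₀` is one of them. -/
structure IsAdmissible {ι : Type} [Fintype ι] (ℓ : ℕ) (W : ι → ℕ) (i₀ : ι) : Prop where
  dvd_sum : ℓ ∣ ∑ i, W i
  five_le : 5 ≤ (Finset.univ.filter fun i => ¬ ℓ ∣ W i).card
  not_dvd : ¬ ℓ ∣ W i₀

/-- The cyclic covering of degree `ℓ` of the plane given by `v` and `W`, over an algebraic closure `F` of the
field `k`. For all finite extensions `k'` of `k` in `F`, the elements of the `ℓ`-adic Tate module of the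
Brauer group of a smooth projective model which are fixed by the automorphisms over `k'(X, Y, y)` are
trivial. There are affine coordinates `x`, `t` over `k` as in `IsGoodChart`, for the line `i₀`; and for all
of them, the Picard group of the integral closure of `F(t)[x]` satisfies `PicardDivisible`. -/
structure PlaneCoverTate (ℓ : ℕ) {k : Type} [Field k] {ι : Type} [Fintype ι] [LinearOrder ι]
    (v : ι × Fin 3 → k) (W : ι → ℕ) (i₀ : ι) : Prop where
  brauer : ∀ (F K S : Type) [Field F] [Algebra k F] [IsAlgClosure k F] [Field K] [Algebra F K]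
    [Field S] [Algebra K S] [IsAlgClosure K S] (X Y y : K), IsPlaneCover ℓ F W v X Y y →
    ∀ k' : IntermediateField k F, FiniteDimensional k k' → BrauerInvariantsTrivial ℓ S k' X Y y
  chart : ∃ g : Matrix (Fin 3) (Fin 3) k, IsGoodChart ℓ v W i₀ g
  picard : ∀ (F K : Type) [Field F] [Algebra k F] [IsAlgClosure k F] [Field K] [Algebra F K]
    (X Y y : K), IsPlaneCover ℓ F W v X Y y →
    ∀ g : Matrix (Fin 3) (Fin 3) k, IsGoodChart ℓ v W i₀ g →
    ∀ t x z : K, (∀ i : Fin 3, algebraMap F K (algebraMap k F (g i 0)) * x +
      algebraMap F K (algebraMap k F (g i 1)) * t + algebraMap F K (algebraMap k F (g i 2)) =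
        z * ![X, Y, 1] i) → PicardDivisible ℓ F t x

end Pool.Agent.Lib.MP_89bcae_ag.Bra
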