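import Mathlib

/-!
# The integral closure in a field of the ring of polynomials in one variable over a field of constants
-/

namespace Pool.Agent.Lib.MP_89bcae_ag.Bra

/-- The integral closure in `K` of `F(T)[x]`, the subring generated by the field `F(T)` and by `x`. -/
def affineRing (F : Type) {K : Type} [Field F] [Field K] [Algebra F K] (T : Set K) (x : K) :
    Subring K :=
  (integralClosure (Subring.closure ((IntermediateField.adjoin F T : Set K) ∪ {x})) K).toSubring

end Pool.Agent.Lib.MP_89bcae_ag.Bra
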