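import Mathlib
import Pool.Agent.Lib.MP_89bcae_ag.Bra.DefsL
import Pool.Agent.Lib.MP_89bcae_ag.Bra.DefsA

/-!
# The cyclic coverings branched along graphs and lines: the Brauer group and the Picard group
-/

open Polynomial

open scoped Classical

namespace Pool.Agent.Lib.MP_89bcae_ag.Bra

open Superelliptic

/-- `A` is the integral closure of `F(t)[x]` in `K`: for all `n`, the `ℓ`-th powers of the elements of the
Picard group of `A` are `ℓ ^ n`-th powers. For `K` as in `IsFunctionField`, if `ℓ` divides neither the `W_i`
nor their sum, the Picard group of `A` is the group of the points over `F(t)` of the Jacobian of the generic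
fibre. Its quotient by the group of the points over `F` of the trace of the Jacobian (a divisible group) is
finitely generated, so that the property implies that this quotient is finite. -/
def IsPicardDivisible (ℓ : ℕ) (F : Type) {K : Type} [Field F] [Field K] [Algebra F K] (t x : K) :
    Prop :=
  ∀ (n : ℕ) (P : CommRing.Pic (affineRing F {t} x)),
    ∃ Q : CommRing.Pic (affineRing F {t} x), P ^ ℓ = Q ^ ℓ ^ n

/-- The surface `y ^ ℓ = ∏ (x - α_i(t)) ^ (W_i)` over an algebraic closure `F` of `k`, where the `α_i` are
the polynomials over `k` of the family `v` with `i` in `I`. The `α_i - α_j` are nonconstant with separable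
product. For all finite extensions `k'` of `k` in `F`, the elements of the `ℓ`-adic Tate module of the Brauer
group of a smooth projective model which are fixed by the automorphisms over `k'(t, x, y)` are trivial. The
Picard group of the integral closure of `F(t)[x]` satisfies `IsPicardDivisible`. -/
structure GraphCoverTate (ℓ : ℕ) (k : Type) [Field k] {ι : Type} [LinearOrder ι] {n : ℕ}
    (v : ι × Fin (n + 1) → ℤ) (I : Finset ι) (W : I → ℕ) : Prop where
  arrangement : IsArrangement fun i : I => Graph.polyFamily k v i
  brauer : ∀ (F K S : Type) [Field F] [Algebra k F] [IsAlgClosure k F] [Field K] [Algebra F K]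
    [Field S] [Algebra K S] [IsAlgClosure K S] (t x y : K),
    IsFunctionField ℓ F W (fun i : I => Graph.polyFamily k v i) t x y →
    ∀ k' : IntermediateField k F, FiniteDimensional k k' → BrauerInvariantsTrivial ℓ S k' t x y
  picard : ∀ (F K : Type) [Field F] [Algebra k F] [IsAlgClosure k F] [Field K] [Algebra F K]
    (t x y : K), IsFunctionField ℓ F W (fun i : I => Graph.polyFamily k v i) t x y →
    IsPicardDivisible ℓ F t x

/-- The cyclic covering of degree `ℓ` of the plane given by `v` and `W`, over an algebraic closure `F` of the
field `k`. For all finite extensions `k'` of `k` in `F`, the elements of the `ℓ`-adic Tate module of the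
Brauer group of a smooth projective model which are fixed by the automorphisms over `k'(X, Y, y)` are
trivial. There are affine coordinates `x`, `t` over `k` as in `IsGoodChart`, for the line `i₀`; and for all
of them, the Picard group of the integral closure of `F(t)[x]` satisfies `IsPicardDivisible`. -/
structure LineCoverTate (ℓ : ℕ) {k : Type} [Field k] {ι : Type} [Fintype ι] [LinearOrder ι]
    (v : ι × Fin 3 → k) (W : ι → ℕ) (i₀ : ι) : Prop where
  brauer : ∀ (F K S : Type) [Field F] [Algebra k F] [IsAlgClosure k F] [Field K] [Algebra F K]
    [Field S] [Algebra K S] [IsAlgClosure K S] (X Y y : K), IsPlaneCover ℓ F W v X Y y →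
    ∀ k' : IntermediateField k F, FiniteDimensional k k' → BrauerInvariantsTrivial ℓ S k' X Y y
  chart : ∃ g : Matrix (Fin 3) (Fin 3) k, IsGoodChart ℓ v W i₀ g
  picard : ∀ (F K : Type) [Field F] [Algebra k F] [IsAlgClosure k F] [Field K] [Algebra F K]
    (X Y y : K), IsPlaneCover ℓ F W v X Y y →
    ∀ g : Matrix (Fin 3) (Fin 3) k, IsGoodChart ℓ v W i₀ g →
    ∀ t x z : K, (∀ i : Fin 3, algebraMap F K (algebraMap k F (g i 0)) * x +
      algebraMap F K (algebraMap k F (g i 1)) * t + algebraMap F K (algebraMap k F (g i 2)) =
        z * ![X, Y, 1] i) → IsPicardDivisible ℓ F t x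

end Pool.Agent.Lib.MP_89bcae_ag.Bra
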