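import Mathlib
import Pool.Agent.Lib.MP_89bcae_ag.Bra.DefsA

/-!
# The ring `F(T)[x]` as a subring and as a subalgebra
-/

namespace Pool.Agent.Lib.MP_89bcae_ag.Bra

/-- `F(T)[x]` as a subring. -/
theorem closure_eq {F K : Type} [Field F] [Field K] [Algebra F K] (T : Set K) (x : K) :
    Subring.closure ((IntermediateField.adjoin F T : Set K) ∪ {x}) =
      (Algebra.adjoin (IntermediateField.adjoin F T) ({x} : Set K)).toSubring := by
  apply le_antisymm
  · rw [Subring.closure_le]
    rintro a (ha | ha)
    · exact (Algebra.adjoin (IntermediateField.adjoin F T) ({x} : Set K)).algebraMap_mem ⟨a, ha⟩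
    · exact Algebra.subset_adjoin ha
  · intro a ha
    have ha' : a ∈ Algebra.adjoin (IntermediateField.adjoin F T) ({x} : Set K) := ha
    clear ha
    induction ha' using Algebra.adjoin_induction with
    | mem a ha => exact Subring.subset_closure (Or.inr ha)
    | algebraMap c => exact Subring.subset_closure (Or.inl c.2)
    | add a b _ _ ha hb => exact add_mem ha hb
    | mul a b _ _ ha hb => exact mul_mem ha hb

/-- The integral closures in `K` of a subring, seen as a subring and as a subalgebra. -/
theorem integralClosure_eq {K L : Type} [Field K] [Field L] [Algebra L K] (A : Subalgebra L K)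
    (B : Subring K) (h : B = A.toSubring) :
    (integralClosure B K).toSubring = (integralClosure A K).toSubring := by
  subst h
  rfl

theorem affineRing_eq {F K : Type} [Field F] [Field K] [Algebra F K] (T : Set K) (x : K) :
    affineRing F T x = (integralClosure (Algebra.adjoin (IntermediateField.adjoin F T)
      ({x} : Set K)) K).toSubring :=
  integralClosure_eq _ _ (closure_eq T x)

end Pool.Agent.Lib.MP_89bcae_ag.Bra
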