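import Mathlib
import Pool.Agent.Lib.MP_89bcae_ag.Bra.DefsP
import Pool.Agent.Lib.MP_89bcae_ag.Bra.PicA

/-!
# The Picard group of an affine curve over a field of rational functions: comparison of two descriptions of
the ring
-/

open Polynomial

open scoped Classical

namespace Pool.Agent.Lib.MP_89bcae_ag.Bra

open Superelliptic

/-- The property of the Picard group, for a subring. -/
def PicPow (ℓ : ℕ) {K : Type} [Field K] (A : Subring K) : Prop :=
  ∀ (n : ℕ) (P : CommRing.Pic A), ∃ Q : CommRing.Pic A, P ^ ℓ = Q ^ ℓ ^ n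

theorem picardDivisible_iff {ℓ : ℕ} {F K : Type} [Field F] [Field K] [Algebra F K] (t x : K) :
    IsPicardDivisible ℓ F t x ↔ PicardDivisible ℓ F t x := by
  change PicPow ℓ (affineRing F {t} x) ↔ _
  rw [affineRing_eq]
  exact Iff.rfl

theorem graphCoverTate_iff (ℓ : ℕ) (k : Type) [Field k] {ι : Type} [LinearOrder ι] {n : ℕ}
    (v : ι × Fin (n + 1) → ℤ) (I : Finset ι) (W : I → ℕ) :
    GraphCoverTate ℓ k v I W ↔ GraphTate ℓ k v I W :=
  ⟨fun h => ⟨h.arrangement, h.brauer, fun F K _ _ _ _ _ t x y hF =>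
      (picardDivisible_iff t x).1 (h.picard F K t x y hF)⟩,
    fun h => ⟨h.arrangement, h.brauer, fun F K _ _ _ _ _ t x y hF =>
      (picardDivisible_iff t x).2 (h.picard F K t x y hF)⟩⟩

theorem lineCoverTate_iff (ℓ : ℕ) {k : Type} [Field k] {ι : Type} [Fintype ι] [LinearOrder ι]
    (v : ι × Fin 3 → k) (W : ι → ℕ) (i₀ : ι) :
    LineCoverTate ℓ v W i₀ ↔ PlaneCoverTate ℓ v W i₀ :=
  ⟨fun h => ⟨h.brauer, h.chart, fun F K _ _ _ _ _ X Y y hF g hg t x z hz =>
      (picardDivisible_iff t x).1 (h.picard F K X Y y hF g hg t x z hz)⟩,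
    fun h => ⟨h.brauer, h.chart, fun F K _ _ _ _ _ X Y y hF g hg t x z hz =>
      (picardDivisible_iff t x).2 (h.picard F K X Y y hF g hg t x z hz)⟩⟩

end Pool.Agent.Lib.MP_89bcae_ag.Bra
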